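import Pool.Agent.N728.QG.Def

set_option autoImplicit false

/-! # WEY: correlations along the differences of polynomial values -/

namespace Pool.Agent.N690.QG

open Finset

noncomputable section

/-- the additive character -/
def ex (x : ℝ) : ℂ := Complex.exp (2 * Real.pi * Complex.I * (x : ℝ))

lemma ex_add (x y : ℝ) : ex (x + y) = ex x * ex y := by
  rw [ex, ex, ex, ← Complex.exp_add]
  congr 1
  push_cast
  ring

lemma ex_zero : ex 0 = 1 := by simp [ex]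

lemma norm_ex (x : ℝ) : ‖ex x‖ = 1 := by
  rw [ex]
  have : (2 * Real.pi * Complex.I * (x : ℝ) : ℂ) = ((2 * Real.pi * x : ℝ) : ℂ) * Complex.I := by
    push_cast; ring
  rw [this, Complex.norm_exp_ofReal_mul_I]

lemma re_ex (x : ℝ) : (ex x).re = Real.cos (2 * Real.pi * x) := by
  rw [ex]
  have : (2 * Real.pi * Complex.I * (x : ℝ) : ℂ) = ((2 * Real.pi * x : ℝ) : ℂ) * Complex.I := by
    push_cast; ring
  rw [this, Complex.exp_ofReal_mul_I_re]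

lemma ex_ne (x : ℝ) : ex x ≠ 0 := Complex.exp_ne_zero _

lemma ex_neg (x : ℝ) : ex (-x) = (ex x)⁻¹ := by
  have h := ex_add x (-x)
  rw [add_neg_cancel, ex_zero] at h
  exact (eq_inv_of_mul_eq_one_right h.symm)

lemma conj_ex (x : ℝ) : (starRingEnd ℂ) (ex x) = ex (-x) := by
  rw [ex_neg, Complex.inv_def, Complex.normSq_eq_norm_sq, norm_ex]
  simp

lemma ex_nat_mul (x : ℝ) (n : ℕ) : ex (n * x) = ex x ^ n := by
  induction n with
  | zero => simp [ex_zero]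
  | succ n ih => rw [pow_succ, ← ih, ← ex_add]; congr 1; push_cast; ring

lemma ex_int (n : ℤ) : ex n = 1 := by
  rw [ex, Complex.exp_eq_one_iff]
  exact ⟨n, by push_cast; ring⟩

lemma ex_eq_one {x : ℝ} (h : ex x = 1) : ∃ n : ℤ, x = n := by
  rw [ex, Complex.exp_eq_one_iff] at h
  obtain ⟨n, hn⟩ := h
  refine ⟨n, ?_⟩
  have h2 : (2 * Real.pi * Complex.I : ℂ) ≠ 0 := Complex.two_pi_I_ne_zero
  have h3 : (2 * Real.pi * Complex.I : ℂ) * (x : ℂ) = (2 * Real.pi * Complex.I : ℂ) * (n : ℂ) := by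
    rw [hn]; ring
  have h4 := mul_left_cancel₀ h2 h3
  exact_mod_cast h4

/-- orthogonality -/
lemma orth (P : ℕ) (hP : 0 < P) (m : ℤ) (hm : |m| < P) :
    ∑ j ∈ range P, ex (m * ((j : ℝ) / P)) = if m = 0 then (P : ℂ) else 0 := by
  have hP' : (P : ℝ) ≠ 0 := by positivity
  have e : ∀ j ∈ range P, ex (m * ((j : ℝ) / P)) = ex ((m : ℝ) / P) ^ j := by
    intro j _
    rw [← ex_nat_mul]
    congr 1
    ring
  rw [sum_congr rfl e]
  split_ifs with h0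
  · subst h0
    simp [ex_zero]
  · have h1 : ex ((m : ℝ) / P) ≠ 1 := by
      intro h
      obtain ⟨n, hn⟩ := ex_eq_one h
      rw [div_eq_iff hP'] at hn
      have h2 : m = n * P := by exact_mod_cast hn
      have hn0 : n ≠ 0 := by
        rintro rfl
        rw [zero_mul] at h2
        exact h0 h2
      have h3 : (P : ℤ) ≤ |m| := by
        rw [h2, abs_mul, Nat.abs_cast]
        have : 1 ≤ |n| := Int.one_le_abs hn0
        nlinarith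
      omega
    rw [geom_sum_eq h1, ← ex_nat_mul]
    have : ((P : ℝ) * ((m : ℝ) / P)) = m := by field_simp
    rw [this, ex_int, sub_self, zero_div]

/-- Parseval's identity -/
lemma pars {ι : Type} (A : Finset ι) (n : ι → ℤ) (c : ι → ℂ) (P : ℕ) (hP : 0 < P)
    (hn : ∀ i ∈ A, ∀ i' ∈ A, |n i - n i'| < P) :
    ((∑ j ∈ range P, ‖∑ i ∈ A, c i * ex (n i * ((j : ℝ) / P))‖ ^ 2 : ℝ) : ℂ) =
      P * ∑ i ∈ A, ∑ i' ∈ A, if n i = n i' then c i * (starRingEnd ℂ) (c i') else 0 := by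
  have e1 : ∀ j : ℕ, ((‖∑ i ∈ A, c i * ex (n i * ((j : ℝ) / P))‖ ^ 2 : ℝ) : ℂ) =
      ∑ i ∈ A, ∑ i' ∈ A, c i * (starRingEnd ℂ) (c i') *
        ex (((n i - n i' : ℤ) : ℝ) * ((j : ℝ) / P)) := by
    intro j
    rw [← Complex.normSq_eq_norm_sq, ← Complex.mul_conj, map_sum, sum_mul_sum]
    refine sum_congr rfl fun i _ => sum_congr rfl fun i' _ => ?_
    rw [map_mul, conj_ex]
    have : ex (((n i - n i' : ℤ) : ℝ) * ((j : ℝ) / P)) =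
        ex (n i * ((j : ℝ) / P)) * ex (-(n i' * ((j : ℝ) / P))) := by
      rw [← ex_add]; congr 1; push_cast; ring
    rw [this]
    ring
  have e2 : ∑ j ∈ range P, (∑ i ∈ A, ∑ i' ∈ A, c i * (starRingEnd ℂ) (c i') *
        ex (((n i - n i' : ℤ) : ℝ) * ((j : ℝ) / P))) =
      ∑ i ∈ A, ∑ i' ∈ A, c i * (starRingEnd ℂ) (c i') *
        ∑ j ∈ range P, ex (((n i - n i' : ℤ) : ℝ) * ((j : ℝ) / P)) := by
    rw [sum_comm]
    refine sum_congr rfl fun i _ => ?_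
    rw [sum_comm]
    refine sum_congr rfl fun i' _ => ?_
    rw [mul_sum]
  rw [Complex.ofReal_sum, sum_congr rfl (fun j _ => e1 j), e2, mul_sum]
  refine sum_congr rfl fun i hi => ?_
  rw [mul_sum]
  refine sum_congr rfl fun i' hi' => ?_
  rw [orth P hP _ (hn i hi i' hi')]
  by_cases h : n i = n i'
  · rw [if_pos (sub_eq_zero.2 h), if_pos h]; ring
  · rw [if_neg (fun h' => h (sub_eq_zero.1 h')), if_neg h]; ring

/-- Parseval's identity for different frequencies -/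
lemma pars_id (A : Finset ℤ) (c : ℤ → ℂ) (P : ℕ) (hP : 0 < P)
    (hn : ∀ i ∈ A, ∀ i' ∈ A, |i - i'| < P) :
    ∑ j ∈ range P, ‖∑ i ∈ A, c i * ex (i * ((j : ℝ) / P))‖ ^ 2 = P * ∑ i ∈ A, ‖c i‖ ^ 2 := by
  have h := pars A (fun i => i) c P hP hn
  have e : ∑ i ∈ A, ∑ i' ∈ A, (if i = i' then c i * (starRingEnd ℂ) (c i') else 0) =
      ((∑ i ∈ A, ‖c i‖ ^ 2 : ℝ) : ℂ) := by
    push_cast
    refine sum_congr rfl fun i hi => ?_
    rw [sum_ite_eq, if_pos hi, Complex.mul_conj, Complex.normSq_eq_norm_sq]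
    push_cast
    rfl
  rw [e] at h
  exact_mod_cast h

/-! ### Sums over blocks -/

lemma sum_Ico_add {M : Type} [AddCommMonoid M] (w : ℤ → M) {a b c : ℤ} (hab : a ≤ b)
    (hbc : b ≤ c) : ∑ x ∈ Ico a b, w x + ∑ x ∈ Ico b c, w x = ∑ x ∈ Ico a c, w x := by
  rw [← Finset.Ico_union_Ico_eq_Ico hab hbc, sum_union]
  exact Finset.Ico_disjoint_Ico_consecutive a b c

/-- block start -/
def bst (a' : ℤ) (H : ℕ) (x : ℤ) : ℤ := a' + (x - a') / H * H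

lemma bst_le (a' : ℤ) {H : ℕ} (hH : 1 ≤ H) (x : ℤ) : bst a' H x ≤ x := by
  have h1 := Int.ediv_mul_le (x - a') (b := (H : ℤ)) (by omega)
  rw [bst]; linarith

lemma lt_bst (a' : ℤ) {H : ℕ} (hH : 1 ≤ H) (x : ℤ) : x < bst a' H x + H := by
  have h1 := Int.lt_ediv_add_one_mul_self (x - a') (b := (H : ℤ)) (by omega)
  rw [bst]; linarith

/-- the sum from the block start -/
def VV (w : ℤ → ℂ) (a' : ℤ) (H : ℕ) (x : ℤ) : ℂ := ∑ σ ∈ Ico (bst a' H x) x, w σ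

lemma blocks (w : ℤ → ℂ) (a' : ℤ) (H : ℕ)
    (hw : ∀ k : ℤ, ∑ σ ∈ Ico (a' + k * H) (a' + (k + 1) * H), w σ = 0) (k : ℤ) (n : ℕ) :
    ∑ σ ∈ Ico (a' + k * H) (a' + (k + n) * H), w σ = 0 := by
  induction n with
  | zero => simp
  | succ n ih =>
    have h0 : (0 : ℤ) ≤ H := Int.natCast_nonneg _
    rw [← sum_Ico_add w (b := a' + (k + n) * H) (by nlinarith) (by push_cast; nlinarith), ih,
      zero_add]
    have := hw (k + n)
    push_cast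
    rw [← add_assoc]
    exact this

lemma sum_Ico_eq (w : ℤ → ℂ) (a' : ℤ) (H : ℕ) (hH : 1 ≤ H)
    (hw : ∀ k : ℤ, ∑ σ ∈ Ico (a' + k * H) (a' + (k + 1) * H), w σ = 0) {A B : ℤ} (hAB : A ≤ B) :
    ∑ σ ∈ Ico A B, w σ = VV w a' H B - VV w a' H A := by
  have h0 : (0 : ℤ) < H := by omega
  have hk : (A - a') / H ≤ (B - a') / H := Int.ediv_le_ediv h0 (by linarith)
  obtain ⟨n, hn⟩ := Int.eq_ofNat_of_zero_le (sub_nonneg.2 hk)
  have h1 : ∑ σ ∈ Ico (bst a' H A) (bst a' H B), w σ = 0 := by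
    have := blocks w a' H hw ((A - a') / H) n
    have e : (A - a') / H + (n : ℤ) = (B - a') / H := by
      have : (n : ℤ) = (B - a') / H - (A - a') / H := hn.symm
      rw [this]; ring
    rw [e] at this
    exact this
  have hAA := bst_le a' hH A
  have hBB := bst_le a' hH B
  have hABb : bst a' H A ≤ bst a' H B := by
    rw [bst, bst]
    have := mul_le_mul_of_nonneg_right hk h0.le
    linarith
  have h2 := sum_Ico_add w hAA hAB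
  have h3 := sum_Ico_add w hABb hBB
  rw [h1, zero_add] at h3
  rw [VV, VV, h3, ← h2]
  ring

lemma norm_VV (w : ℤ → ℂ) (a' : ℤ) (H : ℕ) (hH : 1 ≤ H) (h1 : ∀ σ, ‖w σ‖ ≤ 1) (x : ℤ) :
    ‖VV w a' H x‖ ≤ H := by
  rw [VV]
  refine (norm_sum_le _ _).trans ?_
  calc ∑ σ ∈ Ico (bst a' H x) x, ‖w σ‖ ≤ ∑ σ ∈ Ico (bst a' H x) x, (1 : ℝ) :=
        sum_le_sum fun σ _ => h1 σ
    _ = ((Ico (bst a' H x) x).card : ℝ) := by simp
    _ ≤ H := by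
        rw [Int.card_Ico]
        have h2 := lt_bst a' hH x
        have : (x - bst a' H x).toNat ≤ H := by omega
        exact_mod_cast this

lemma VV_zero (w : ℤ → ℂ) (a' : ℤ) (H N : ℕ) (hH : 1 ≤ H) (a : ℤ)
    (h0 : ∀ σ : ℤ, ¬ (a < σ ∧ σ ≤ a + N) → w σ = 0) (x : ℤ)
    (hx : ¬ (a < x ∧ x ≤ a + N + H)) : VV w a' H x = 0 := by
  rw [VV]
  refine sum_eq_zero fun σ hσ => h0 σ fun h => hx ?_
  rw [mem_Ico] at hσ
  have := lt_bst a' hH x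
  omega

/-- the sum of the squares of the sums over windows of length `h` -/
lemma windows (w : ℤ → ℂ) (a a' : ℤ) (H N h : ℕ) (hH : 1 ≤ H)
    (hw : ∀ k : ℤ, ∑ σ ∈ Ico (a' + k * H) (a' + (k + 1) * H), w σ = 0) (h1 : ∀ σ, ‖w σ‖ ≤ 1)
    (h0 : ∀ σ : ℤ, ¬ (a < σ ∧ σ ≤ a + N) → w σ = 0) (A : Finset ℤ) :
    ∑ s ∈ A, ‖∑ σ ∈ Ico (s - h + 1) (s + 1), w σ‖ ^ 2 ≤ 4 * (H : ℝ) ^ 2 * (N + H) := by
  have hV : ∀ c : ℤ, ∑ s ∈ A, ‖VV w a' H (s + c)‖ ^ 2 ≤ (H : ℝ) ^ 2 * (N + H) := by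
    intro c
    have e1 : ∑ s ∈ A, ‖VV w a' H (s + c)‖ ^ 2 =
        ∑ s ∈ A.filter (fun s => a < s + c ∧ s + c ≤ a + N + H), ‖VV w a' H (s + c)‖ ^ 2 := by
      rw [sum_filter]
      refine sum_congr rfl fun s _ => ?_
      split_ifs with h
      · rfl
      · rw [VV_zero w a' H N hH a h0 _ h]; simp
    rw [e1]
    calc ∑ s ∈ A.filter (fun s => a < s + c ∧ s + c ≤ a + N + H), ‖VV w a' H (s + c)‖ ^ 2
        ≤ ∑ s ∈ A.filter (fun s => a < s + c ∧ s + c ≤ a + N + H), (H : ℝ) ^ 2 := by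
          refine sum_le_sum fun s _ => ?_
          have := norm_VV w a' H hH h1 (s + c)
          gcongr
      _ = ((A.filter (fun s => a < s + c ∧ s + c ≤ a + N + H)).card : ℝ) * (H : ℝ) ^ 2 := by
          rw [sum_const, nsmul_eq_mul]
      _ ≤ ((N : ℝ) + H) * (H : ℝ) ^ 2 := by
          gcongr
          have h2 : (A.filter (fun s => a < s + c ∧ s + c ≤ a + N + H)).card ≤
              (Ioc (a - c) (a + N + H - c)).card := by
            apply card_le_card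
            intro s hs
            rw [mem_filter] at hs
            rw [mem_Ioc]
            omega
          rw [Int.card_Ioc] at h2
          have h3 : (a + N + H - c - (a - c)).toNat = N + H := by omega
          rw [h3] at h2
          exact_mod_cast h2
      _ = _ := by ring
  calc ∑ s ∈ A, ‖∑ σ ∈ Ico (s - h + 1) (s + 1), w σ‖ ^ 2
      ≤ ∑ s ∈ A, (2 * ‖VV w a' H (s + 1)‖ ^ 2 + 2 * ‖VV w a' H (s + (1 - h))‖ ^ 2) := by
        refine sum_le_sum fun s _ => ?_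
        rw [sum_Ico_eq w a' H hH hw (by omega : s - h + 1 ≤ s + 1)]
        have e : s - h + 1 = s + (1 - (h : ℤ)) := by ring
        rw [e]
        have h2 := norm_sub_le (VV w a' H (s + 1)) (VV w a' H (s + (1 - (h : ℤ))))
        have h3 : ‖VV w a' H (s + 1) - VV w a' H (s + (1 - (h : ℤ)))‖ ^ 2 ≤
            (‖VV w a' H (s + 1)‖ + ‖VV w a' H (s + (1 - (h : ℤ)))‖) ^ 2 := by gcongr
        nlinarith [sq_nonneg (‖VV w a' H (s + 1)‖ - ‖VV w a' H (s + (1 - (h : ℤ)))‖)]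
    _ = 2 * ∑ s ∈ A, ‖VV w a' H (s + 1)‖ ^ 2 +
        2 * ∑ s ∈ A, ‖VV w a' H (s + (1 - h))‖ ^ 2 := by
        rw [sum_add_distrib, ← mul_sum, ← mul_sum]
    _ ≤ 4 * (H : ℝ) ^ 2 * (N + H) := by
        have h2 := hV 1
        have h3 := hV (1 - h)
        linarith

/-- the block sums of `Φ` twisted by a character of small denominator vanish -/
lemma block_zero (Φ : ℤ → ℝ) (R : ℕ) (a' : ℤ) (H : ℕ) (hc : Pool.Agent.N728.QG.CellZ Φ R a' H)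
    (r : ℕ) (hr : r ∈ Icc 1 R) (b : ℤ) (k : ℤ) :
    ∑ σ ∈ Ico (a' + k * H) (a' + (k + 1) * H), (Φ σ : ℂ) * ex (σ * ((b : ℝ) / r)) = 0 := by
  have hr1 : 1 ≤ r := (mem_Icc.1 hr).1
  have hr0 : (r : ℝ) ≠ 0 := by positivity
  have hrz : (0 : ℤ) < r := by omega
  rw [← sum_fiberwise_of_maps_to (s := Ico (a' + k * H) (a' + (k + 1) * H))
    (t := Ico (0 : ℤ) r) (g := fun σ => σ % r)
    (fun σ _ => mem_Ico.2 ⟨Int.emod_nonneg _ hrz.ne', Int.emod_lt_of_pos _ hrz⟩)]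
  refine sum_eq_zero fun ρ hρ => ?_
  rw [mem_Ico] at hρ
  have e1 : ∀ σ ∈ (Ico (a' + k * H) (a' + (k + 1) * H)).filter (fun σ => σ % r = ρ),
      (Φ σ : ℂ) * ex (σ * ((b : ℝ) / r)) = (Φ σ : ℂ) * ex (ρ * ((b : ℝ) / r)) := by
    intro σ hσ
    have h1 := (mem_filter.1 hσ).2
    have h2 : σ = ρ + r * (σ / r) := by rw [← h1]; exact (Int.emod_add_mul_ediv σ r).symm
    have h3 : ((σ : ℝ) * ((b : ℝ) / r)) = ρ * ((b : ℝ) / r) + ((σ / r * b : ℤ) : ℝ) := by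
      have h4 : (σ : ℝ) = ρ + r * ((σ / (r : ℤ) : ℤ) : ℝ) := by exact_mod_cast h2
      rw [h4]
      push_cast
      field_simp
    rw [h3, ex_add, ex_int, mul_one]
  rw [sum_congr rfl e1, ← sum_mul]
  have h4 := hc r hr ρ k
  have e2 : (Ico (a' + k * H) (a' + (k + 1) * H)).filter (fun σ => σ % r = ρ) =
      (Ico (a' + k * H) (a' + (k + 1) * H)).filter (fun σ => σ ≡ ρ [ZMOD (r : ℤ)]) := by
    refine filter_congr fun σ _ => ?_
    rw [Int.ModEq, Int.emod_eq_of_lt hρ.1 hρ.2]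
  rw [e2, ← Complex.ofReal_sum, h4, Complex.ofReal_zero, zero_mul]

/-- the geometric sum near zero -/
lemma geo_low (h : ℕ) (θ : ℝ) (hθ : (h : ℝ) * |θ| ≤ 1 / 8) :
    (h : ℝ) / 2 ≤ ‖∑ n ∈ range h, ex (n * θ)‖ := by
  refine le_trans ?_ (Complex.re_le_norm _)
  rw [Complex.re_sum]
  calc (h : ℝ) / 2 = ∑ _n ∈ range h, (1 / 2 : ℝ) := by simp; ring
    _ ≤ ∑ n ∈ range h, (ex (n * θ)).re := by
        refine sum_le_sum fun n hn => ?_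
        rw [mem_range] at hn
        rw [re_ex]
        have hn' : (n : ℝ) ≤ h := by exact_mod_cast hn.le
        have h1 : |(n : ℝ) * θ| ≤ 1 / 8 := by
          rw [abs_mul, Nat.abs_cast]
          exact (mul_le_mul_of_nonneg_right hn' (abs_nonneg _)).trans hθ
        have h2 : |2 * Real.pi * ((n : ℝ) * θ)| ≤ Real.pi / 3 := by
          rw [abs_mul, abs_of_pos (by positivity : 0 < 2 * Real.pi)]
          calc 2 * Real.pi * |(n : ℝ) * θ| ≤ 2 * Real.pi * (1 / 8) := by gcongr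
            _ ≤ Real.pi / 3 := by nlinarith [Real.pi_pos]
        rw [← Real.cos_abs, ← Real.cos_pi_div_three]
        apply Real.cos_le_cos_of_nonneg_of_le_pi (abs_nonneg _) _ h2
        linarith [Real.pi_pos]

/-- the Fourier transform -/
def FF (Φ : ℤ → ℝ) (a : ℤ) (N : ℕ) (α : ℝ) : ℂ := ∑ σ ∈ Ioc a (a + N), (Φ σ : ℂ) * ex (σ * α)

/-- product with a geometric sum -/
lemma FF_mul (Φ : ℤ → ℝ) (a : ℤ) (N h : ℕ) (α β : ℝ)
    (h0 : ∀ σ : ℤ, ¬ (a < σ ∧ σ ≤ a + N) → Φ σ = 0) :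
    FF Φ a N α * ∑ n ∈ range h, ex (n * (α - β)) =
      ∑ s ∈ Ioc a (a + N + h), (∑ n ∈ range h, (Φ (s - n) : ℂ) * ex (-(n * β))) * ex (s * α) := by
  have e1 : ∑ s ∈ Ioc a (a + N + h), (∑ n ∈ range h, (Φ (s - n) : ℂ) * ex (-(n * β))) *
      ex (s * α) = ∑ n ∈ range h, ∑ s ∈ Ioc a (a + N + h),
        (Φ (s - n) : ℂ) * ex (-(n * β)) * ex (s * α) := by
    rw [sum_comm]
    refine sum_congr rfl fun s _ => ?_
    rw [sum_mul]
  rw [e1, FF, mul_sum]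
  refine sum_congr rfl fun n hn => ?_
  rw [mem_range] at hn
  rw [sum_mul]
  -- shift
  have e2 : ∑ s ∈ Ioc a (a + N + h), (Φ (s - n) : ℂ) * ex (-(n * β)) * ex (s * α) =
      ∑ σ ∈ Ioc (a - n) (a + N + h - n), (Φ σ : ℂ) * ex (-(n * β)) * ex ((σ + n) * α) := by
    refine sum_nbij' (fun s => s - n) (fun σ => σ + n) ?_ ?_ ?_ ?_ ?_
    · intro s hs; simp only [mem_Ioc] at hs ⊢; omega
    · intro s hs; simp only [mem_Ioc] at hs ⊢; omega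
    · intro s _; ring
    · intro s _; ring
    · intro s _
      congr 2
      push_cast
      ring
  rw [e2]
  rw [← sum_subset (s₁ := Ioc a (a + N)) (s₂ := Ioc (a - n) (a + N + h - n))]
  · refine sum_congr rfl fun σ _ => ?_
    rw [mul_assoc, mul_assoc]
    congr 1
    rw [← ex_add, ← ex_add]
    congr 1
    ring
  · intro σ hσ; rw [mem_Ioc] at hσ ⊢; omega
  · intro σ _ hσ
    rw [mem_Ioc] at hσ
    rw [h0 σ hσ]
    simp

/-- the energy near a rational number of small denominator -/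
lemma near_rat (Φ : ℤ → ℝ) (R : ℕ) (a a' : ℤ) (H N h P : ℕ) (hH : 1 ≤ H) (hHN : H ≤ N) (hh : 1 ≤ h)
    (h1 : ∀ σ, |Φ σ| ≤ 1) (h0 : ∀ σ : ℤ, ¬ (a < σ ∧ σ ≤ a + N) → Φ σ = 0)
    (hc : Pool.Agent.N728.QG.CellZ Φ R a' H) (hP : N + h < P) (r : ℕ) (hr : r ∈ Icc 1 R) (b : ℤ)
    (τ : ℝ) (hτ : h * τ ≤ 1 / 8) :
    ∑ j ∈ (range P).filter (fun j : ℕ => |(j : ℝ) / P - (b : ℝ) / r| ≤ τ),
      ‖FF Φ a N ((j : ℝ) / P)‖ ^ 2 ≤ P * (32 * N * ((H : ℝ) / h) ^ 2) := by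
  have hh' : (0 : ℝ) < h := by exact_mod_cast hh
  set β : ℝ := (b : ℝ) / r with hβ
  set D : ℕ → ℂ := fun j => ∑ n ∈ range h, ex (n * ((j : ℝ) / P - β)) with hD
  have hlow : ∀ j ∈ (range P).filter (fun j : ℕ => |(j : ℝ) / P - β| ≤ τ),
      ‖FF Φ a N ((j : ℝ) / P)‖ ^ 2 ≤ 4 / (h : ℝ) ^ 2 * ‖FF Φ a N ((j : ℝ) / P) * D j‖ ^ 2 := by
    intro j hj
    have h2 := (mem_filter.1 hj).2
    have h3 := geo_low h ((j : ℝ) / P - β) (by
      exact (mul_le_mul_of_nonneg_left h2 hh'.le).trans hτ)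
    rw [norm_mul, mul_pow]
    have h4 : ((h : ℝ) / 2) ^ 2 ≤ ‖D j‖ ^ 2 := by gcongr
    have h5 : (1 : ℝ) ≤ 4 / (h : ℝ) ^ 2 * ‖D j‖ ^ 2 := by
      calc (1 : ℝ) = 4 / (h : ℝ) ^ 2 * ((h : ℝ) / 2) ^ 2 := by field_simp; ring
        _ ≤ _ := by gcongr
    have h6 : 0 ≤ ‖FF Φ a N ((j : ℝ) / P)‖ ^ 2 := sq_nonneg _
    nlinarith
  set g : ℤ → ℂ := fun s => ∑ n ∈ range h, (Φ (s - n) : ℂ) * ex (-(n * β)) with hg
  have hsum : ∑ j ∈ range P, ‖FF Φ a N ((j : ℝ) / P) * D j‖ ^ 2 =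
      P * ∑ s ∈ Ioc a (a + N + h), ‖g s‖ ^ 2 := by
    rw [← pars_id (Ioc a (a + N + h)) g P (by omega) (by
      intro i hi i' hi'
      rw [mem_Ioc] at hi hi'
      rw [abs_lt]
      constructor <;> omega)]
    refine sum_congr rfl fun j _ => ?_
    rw [hD]
    simp only
    rw [FF_mul Φ a N h _ _ h0]
  have hgs : ∀ s, ‖g s‖ = ‖∑ σ ∈ Ico (s - h + 1) (s + 1), (Φ σ : ℂ) * ex (σ * β)‖ := by
    intro s
    have e1 : g s = ex (-(s * β)) * ∑ σ ∈ Ico (s - h + 1) (s + 1), (Φ σ : ℂ) * ex (σ * β) := by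
      rw [hg]
      simp only
      rw [mul_sum]
      refine sum_nbij' (fun n : ℕ => s - n) (fun σ => (s - σ).toNat) ?_ ?_ ?_ ?_ ?_
      · intro n hn; rw [mem_range] at hn; rw [mem_Ico]; omega
      · intro σ hσ; rw [mem_Ico] at hσ; rw [mem_range]; omega
      · intro n _; simp
      · intro σ hσ
        rw [mem_Ico] at hσ
        have : (0 : ℤ) ≤ s - σ := by omega
        rw [Int.toNat_of_nonneg this]; ring
      · intro n _
        have : ex (-(n * β)) = ex (-(s * β)) * ex (((s - n : ℤ) : ℝ) * β) := by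
          rw [← ex_add]; congr 1; push_cast; ring
        rw [this]; ring
    rw [e1, norm_mul, norm_ex, one_mul]
  have hwin := windows (fun σ => (Φ σ : ℂ) * ex (σ * β)) a a' H N h hH
    (fun k => block_zero Φ R a' H hc r hr b k)
    (fun σ => by rw [norm_mul, norm_ex, mul_one, Complex.norm_real]; exact h1 σ)
    (fun σ hσ => by rw [h0 σ hσ]; simp) (Ioc a (a + N + h))
  calc ∑ j ∈ (range P).filter (fun j : ℕ => |(j : ℝ) / P - β| ≤ τ), ‖FF Φ a N ((j : ℝ) / P)‖ ^ 2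
      ≤ ∑ j ∈ (range P).filter (fun j : ℕ => |(j : ℝ) / P - β| ≤ τ),
          4 / (h : ℝ) ^ 2 * ‖FF Φ a N ((j : ℝ) / P) * D j‖ ^ 2 := sum_le_sum hlow
    _ ≤ ∑ j ∈ range P, 4 / (h : ℝ) ^ 2 * ‖FF Φ a N ((j : ℝ) / P) * D j‖ ^ 2 :=
        sum_le_sum_of_subset_of_nonneg (filter_subset _ _) fun _ _ _ => by positivity
    _ = 4 / (h : ℝ) ^ 2 * (P * ∑ s ∈ Ioc a (a + N + h), ‖g s‖ ^ 2) := by
        rw [← mul_sum, hsum]
    _ ≤ 4 / (h : ℝ) ^ 2 * (P * (4 * (H : ℝ) ^ 2 * (N + H))) := by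
        gcongr
        simp_rw [hgs]
        exact hwin
    _ ≤ 4 / (h : ℝ) ^ 2 * (P * (4 * (H : ℝ) ^ 2 * (N + N))) := by
        gcongr
    _ = P * (32 * N * ((H : ℝ) / h) ^ 2) := by
        field_simp
        ring

/-- the Fourier expression of the correlations -/
lemma corr_eq (Q : Polynomial ℤ) (Φ : ℤ → ℝ) (a ξ0 ξ1 : ℤ) (N P : ℕ) (M : ℤ)
    (hM : ∀ ξ ∈ Ioc ξ0 ξ1, |Q.eval ξ| ≤ M) (hP0 : 0 < P) (hP : 2 * M + N < P)
    (h0 : ∀ σ : ℤ, ¬ (a < σ ∧ σ ≤ a + N) → Φ σ = 0) :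
    (P : ℝ) * ∑ ξ ∈ Ioc ξ0 ξ1, ∑ ξ' ∈ Ioc ξ0 ξ1, ∑ σ ∈ Ioc a (a + N),
        Φ σ * Φ (σ + Q.eval ξ' - Q.eval ξ) =
      ∑ j ∈ range P, ‖FF Φ a N ((j : ℝ) / P)‖ ^ 2 *
        ‖∑ ξ ∈ Ioc ξ0 ξ1, ex ((j : ℝ) / P * ((Q.eval ξ : ℤ) : ℝ))‖ ^ 2 := by
  have hpar := pars (Ioc a (a + N) ×ˢ Ioc ξ0 ξ1) (fun p : ℤ × ℤ => p.1 + Q.eval p.2)
    (fun p : ℤ × ℤ => (Φ p.1 : ℂ)) P hP0 (by
      intro p hp p' hp'
      rw [mem_product, mem_Ioc] at hp hp'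
      have h1 := abs_le.1 (hM _ hp.2)
      have h2 := abs_le.1 (hM _ hp'.2)
      rw [abs_lt]
      constructor <;> linarith [hp.1.1, hp.1.2, hp'.1.1, hp'.1.2, h1.1, h1.2, h2.1, h2.2])
  have e1 : ∀ j : ℕ, ‖FF Φ a N ((j : ℝ) / P)‖ ^ 2 *
      ‖∑ ξ ∈ Ioc ξ0 ξ1, ex ((j : ℝ) / P * ((Q.eval ξ : ℤ) : ℝ))‖ ^ 2 =
      ‖∑ p ∈ Ioc a (a + N) ×ˢ Ioc ξ0 ξ1, (Φ p.1 : ℂ) *
        ex (((p.1 + Q.eval p.2 : ℤ) : ℝ) * ((j : ℝ) / P))‖ ^ 2 := by
    intro j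
    rw [← mul_pow, ← norm_mul, FF, sum_mul_sum, sum_product]
    congr 2
    refine sum_congr rfl fun σ _ => sum_congr rfl fun ξ _ => ?_
    rw [mul_assoc, ← ex_add]
    congr 2
    push_cast
    ring
  simp_rw [e1]
  have e2 : ∑ p ∈ Ioc a (a + N) ×ˢ Ioc ξ0 ξ1, ∑ p' ∈ Ioc a (a + N) ×ˢ Ioc ξ0 ξ1,
      (if p.1 + Q.eval p.2 = p'.1 + Q.eval p'.2 then
        (Φ p.1 : ℂ) * (starRingEnd ℂ) (Φ p'.1 : ℂ) else 0) =
      ((∑ ξ ∈ Ioc ξ0 ξ1, ∑ ξ' ∈ Ioc ξ0 ξ1, ∑ σ ∈ Ioc a (a + N),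
        Φ σ * Φ (σ + Q.eval ξ' - Q.eval ξ) : ℝ) : ℂ) := by
    have e3 : ∀ p ∈ Ioc a (a + N) ×ˢ Ioc ξ0 ξ1, ∑ p' ∈ Ioc a (a + N) ×ˢ Ioc ξ0 ξ1,
        (if p.1 + Q.eval p.2 = p'.1 + Q.eval p'.2 then
          (Φ p.1 : ℂ) * (starRingEnd ℂ) (Φ p'.1 : ℂ) else 0) =
        ∑ ξ' ∈ Ioc ξ0 ξ1, ((Φ p.1 * Φ (p.1 + Q.eval p.2 - Q.eval ξ') : ℝ) : ℂ) := by
      intro p _
      rw [sum_product_right]
      refine sum_congr rfl fun ξ' _ => ?_
      have e4 : ∀ σ' ∈ Ioc a (a + N), (if p.1 + Q.eval p.2 = σ' + Q.eval ξ' then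
          (Φ p.1 : ℂ) * (starRingEnd ℂ) (Φ σ' : ℂ) else 0) =
          if p.1 + Q.eval p.2 - Q.eval ξ' = σ' then ((Φ p.1 * Φ σ' : ℝ) : ℂ) else 0 := by
        intro σ' _
        by_cases h : p.1 + Q.eval p.2 = σ' + Q.eval ξ'
        · rw [if_pos h, if_pos (by linarith), Complex.conj_ofReal]
          push_cast
          rfl
        · rw [if_neg h, if_neg (fun h' => h (by linarith))]
      rw [sum_congr rfl e4, sum_ite_eq]
      split_ifs with h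
      · rfl
      · rw [mem_Ioc] at h
        rw [h0 _ h, mul_zero]
        simp
    rw [sum_congr rfl e3, sum_product_right]
    push_cast
    rw [sum_comm]
    have e5 : ∀ ξ ∈ Ioc ξ0 ξ1, ∑ σ ∈ Ioc a (a + (N : ℤ)), ∑ ξ' ∈ Ioc ξ0 ξ1,
        (Φ σ : ℂ) * (Φ (σ + Q.eval ξ - Q.eval ξ') : ℂ) =
        ∑ ξ' ∈ Ioc ξ0 ξ1, ∑ σ ∈ Ioc a (a + (N : ℤ)),
          (Φ σ : ℂ) * (Φ (σ + Q.eval ξ - Q.eval ξ') : ℂ) := fun ξ _ => sum_comm
    rw [sum_comm, sum_congr rfl e5, sum_comm]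
  rw [e2] at hpar
  have h2 : ((∑ j ∈ range P, ‖∑ p ∈ Ioc a (a + N) ×ˢ Ioc ξ0 ξ1, (Φ p.1 : ℂ) *
        ex (((p.1 + Q.eval p.2 : ℤ) : ℝ) * ((j : ℝ) / P))‖ ^ 2 : ℝ) : ℂ) =
      (((P : ℝ) * ∑ ξ ∈ Ioc ξ0 ξ1, ∑ ξ' ∈ Ioc ξ0 ξ1, ∑ σ ∈ Ioc a (a + N),
        Φ σ * Φ (σ + Q.eval ξ' - Q.eval ξ) : ℝ) : ℂ) := by
    rw [hpar, Complex.ofReal_mul, Complex.ofReal_natCast]
  exact (Complex.ofReal_injective h2).symm

/-- WEY. -/
theorem t_WEY (hWI : Pool.Agent.N728.QG.S_WI) : Pool.Agent.N728.QG.S_WEY := by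
  intro Q hQ ε hε
  set δ : ℝ := Real.sqrt (ε / 2) with hδ
  have hδ0 : 0 < δ := Real.sqrt_pos.2 (by positivity)
  have hδ2 : δ ^ 2 = ε / 2 := Real.sq_sqrt (by positivity)
  obtain ⟨R, hR, C, hC, L0, hW⟩ := hWI Q hQ δ hδ0
  have hR' : (1 : ℝ) ≤ R := by exact_mod_cast hR
  set c0 : ℝ := 16 * C + 16 with hc0
  have hc0' : 0 < c0 := by positivity
  refine ⟨R, hR, δ / (13 * R * c0), by positivity, max L0 ⌈8 * C + 8⌉₊, ?_⟩
  intro L hL N H a a' ξ0 ξ1 Φ hH hHη hHN hξ hξL h1 h0 hcell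
  have hL0 : L0 ≤ L := (le_max_left _ _).trans hL
  have hL1 : 8 * C + 8 ≤ (L : ℝ) := by
    have : ⌈8 * C + 8⌉₊ ≤ L := (le_max_right _ _).trans hL
    exact (Nat.le_ceil _).trans (by exact_mod_cast this)
  have hLpos : (0 : ℝ) < L := by linarith
  set x : ℝ := (L : ℝ) ^ Q.natDegree with hx
  have hxL : (L : ℝ) ≤ x := le_self_pow₀ (by linarith) (by omega)
  have hx0 : 0 < x := by linarith
  -- the length of the geometric sum
  set h : ℕ := ⌊x / (8 * C + 8)⌋₊ with hh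
  have hxc : 1 ≤ x / (8 * C + 8) := by
    rw [one_le_div (by positivity)]; linarith
  have hh1 : 1 ≤ h := by
    rw [hh]; exact Nat.one_le_floor_iff _ |>.2 hxc
  have hh1' : (1 : ℝ) ≤ h := by exact_mod_cast hh1
  have hhle : (h : ℝ) ≤ x / (8 * C + 8) := Nat.floor_le (by positivity)
  have hhge : x / c0 ≤ h := by
    have h2 := Nat.lt_floor_add_one (x / (8 * C + 8))
    rw [← hh] at h2
    have h3 : x / (8 * C + 8) ≤ 2 * h := by linarith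
    have h4 : x / c0 = x / (8 * C + 8) / 2 := by rw [hc0]; field_simp; ring
    rw [h4]; linarith
  set τ : ℝ := C / x with hτ
  have hτ8 : (h : ℝ) * τ ≤ 1 / 8 := by
    calc (h : ℝ) * τ ≤ x / (8 * C + 8) * (C / x) := by rw [hτ]; gcongr
      _ = C / (8 * C + 8) := by field_simp
      _ ≤ 1 / 8 := by rw [div_le_div_iff₀ (by positivity) (by norm_num)]; linarith
  have hτ1 : τ ≤ 1 := by
    rw [hτ, div_le_one hx0]; linarith
  have hHh : (H : ℝ) / h ≤ δ / (13 * R) := by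
    rw [div_le_iff₀ (by linarith)]
    calc (H : ℝ) ≤ δ / (13 * R * c0) * x := hHη
      _ = δ / (13 * R) * (x / c0) := by field_simp
      _ ≤ δ / (13 * R) * h := by gcongr
  -- the modulus
  set M : ℕ := ∑ ξ ∈ Ioc ξ0 ξ1, (Q.eval ξ).natAbs with hM
  have hMb : ∀ ξ ∈ Ioc ξ0 ξ1, |Q.eval ξ| ≤ (M : ℤ) := by
    intro ξ hξ
    have h2 : (Q.eval ξ).natAbs ≤ M :=
      single_le_sum (f := fun ξ => (Q.eval ξ).natAbs) (fun _ _ => Nat.zero_le _) hξ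
    rw [Int.abs_eq_natAbs]
    exact_mod_cast h2
  set P : ℕ := 2 * M + N + h + 1 with hP
  have hP0 : (0 : ℝ) < P := by rw [hP]; positivity
  have hcorr := corr_eq Q Φ a ξ0 ξ1 N P M hMb (by omega) (by rw [hP]; push_cast; omega) h0
  set X : ℝ := ∑ ξ ∈ Ioc ξ0 ξ1, ∑ ξ' ∈ Ioc ξ0 ξ1, ∑ σ ∈ Ioc a (a + N),
    Φ σ * Φ (σ + Q.eval ξ' - Q.eval ξ) with hX
  set S : ℕ → ℂ := fun j => ∑ ξ ∈ Ioc ξ0 ξ1, ex ((j : ℝ) / P * ((Q.eval ξ : ℤ) : ℝ)) with hS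
  have hSL : ∀ j, ‖S j‖ ≤ L := by
    intro j
    refine (norm_sum_le _ _).trans ?_
    rw [sum_congr rfl (fun ξ _ => norm_ex _), sum_const, nsmul_eq_mul, mul_one, Int.card_Ioc]
    have : (ξ1 - ξ0).toNat ≤ L := by omega
    exact_mod_cast this
  -- the energy
  have hen : ∑ j ∈ range P, ‖FF Φ a N ((j : ℝ) / P)‖ ^ 2 ≤ P * N := by
    have h2 := pars_id (Ioc a (a + N)) (fun σ => (Φ σ : ℂ)) P (by omega) (by
      intro i hi i' hi'
      rw [mem_Ioc] at hi hi'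
      rw [abs_lt]
      constructor <;> omega)
    rw [show ∑ j ∈ range P, ‖FF Φ a N ((j : ℝ) / P)‖ ^ 2 = P * ∑ i ∈ Ioc a (a + (N : ℤ)),
      ‖(Φ i : ℂ)‖ ^ 2 from h2]
    gcongr
    calc ∑ i ∈ Ioc a (a + (N : ℤ)), ‖(Φ i : ℂ)‖ ^ 2 ≤ ∑ _i ∈ Ioc a (a + (N : ℤ)), (1 : ℝ) := by
          refine sum_le_sum fun i _ => ?_
          rw [Complex.norm_real, Real.norm_eq_abs]
          have := h1 i
          have h3 := abs_nonneg (Φ i)
          nlinarith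
      _ = N := by simp
  -- the major arcs
  have hmaj : ∀ j ∈ range P, δ * L ≤ ‖S j‖ → ∃ r ∈ Icc 1 R, ∃ b ∈ Icc (-(2 * R : ℤ)) (2 * R),
      |(j : ℝ) / P - (b : ℝ) / r| ≤ τ := by
    intro j hj hSj
    obtain ⟨r, hr, b, hb⟩ := hW L hL0 ξ0 ξ1 ((j : ℝ) / P) hξ hξL hSj
    refine ⟨r, hr, b, ?_, hb⟩
    rw [mem_Icc] at hr
    have hr' : (1 : ℝ) ≤ r := by exact_mod_cast hr.1
    have hrR : (r : ℝ) ≤ R := by exact_mod_cast hr.2
    have hj1 : (j : ℝ) / P ≤ 1 := by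
      rw [div_le_one hP0]
      exact_mod_cast (mem_range.1 hj).le
    have hj0 : 0 ≤ (j : ℝ) / P := by positivity
    have h2 : |(b : ℝ) / r| ≤ 2 := by
      have h3 := abs_le.1 (hb.trans hτ1)
      rw [abs_le]
      constructor <;> linarith [h3.1, h3.2]
    rw [abs_div, Nat.abs_cast, div_le_iff₀ (by linarith)] at h2
    have h3 : |(b : ℝ)| ≤ 2 * R := by nlinarith
    have h4 := abs_le.1 h3
    rw [mem_Icc]
    constructor
    · have : (-(2 * R : ℤ) : ℝ) ≤ b := by push_cast; linarith [h4.1]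
      exact_mod_cast this
    · have : (b : ℝ) ≤ ((2 * R : ℤ) : ℝ) := by push_cast; linarith [h4.2]
      exact_mod_cast this
  have hpt : ∀ j ∈ range P, ‖FF Φ a N ((j : ℝ) / P)‖ ^ 2 * ‖S j‖ ^ 2 ≤
      (δ * L) ^ 2 * ‖FF Φ a N ((j : ℝ) / P)‖ ^ 2 +
        (L : ℝ) ^ 2 * ∑ r ∈ Icc 1 R, ∑ b ∈ Icc (-(2 * R : ℤ)) (2 * R),
          (if |(j : ℝ) / P - (b : ℝ) / r| ≤ τ then ‖FF Φ a N ((j : ℝ) / P)‖ ^ 2 else 0) := by
    intro j hj
    have hF0 : 0 ≤ ‖FF Φ a N ((j : ℝ) / P)‖ ^ 2 := sq_nonneg _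
    have hnn : ∀ r ∈ Icc 1 R, 0 ≤ ∑ b ∈ Icc (-(2 * R : ℤ)) (2 * R),
        (if |(j : ℝ) / P - (b : ℝ) / r| ≤ τ then ‖FF Φ a N ((j : ℝ) / P)‖ ^ 2 else 0) :=
      fun r _ => sum_nonneg fun b _ => by split_ifs <;> [exact hF0; exact le_rfl]
    by_cases hSj : δ * L ≤ ‖S j‖
    · obtain ⟨r, hr, b, hb, hrb⟩ := hmaj j hj hSj
      have h2 : ‖FF Φ a N ((j : ℝ) / P)‖ ^ 2 ≤ ∑ r ∈ Icc 1 R, ∑ b ∈ Icc (-(2 * R : ℤ)) (2 * R),
          (if |(j : ℝ) / P - (b : ℝ) / r| ≤ τ then ‖FF Φ a N ((j : ℝ) / P)‖ ^ 2 else 0) := by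
        refine le_trans ?_ (single_le_sum hnn hr)
        refine le_trans ?_ (single_le_sum (f := fun b : ℤ => if |(j : ℝ) / P - (b : ℝ) / r| ≤ τ then
          ‖FF Φ a N ((j : ℝ) / P)‖ ^ 2 else 0)
          (fun b _ => by split_ifs <;> [exact hF0; exact le_rfl]) hb)
        rw [if_pos hrb]
      have h3 : ‖S j‖ ^ 2 ≤ (L : ℝ) ^ 2 := by
        have := hSL j
        gcongr
      have h4 : 0 ≤ (δ * L) ^ 2 * ‖FF Φ a N ((j : ℝ) / P)‖ ^ 2 := by positivity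
      calc ‖FF Φ a N ((j : ℝ) / P)‖ ^ 2 * ‖S j‖ ^ 2 ≤ ‖FF Φ a N ((j : ℝ) / P)‖ ^ 2 * (L : ℝ) ^ 2 :=
            mul_le_mul_of_nonneg_left h3 hF0
        _ = (L : ℝ) ^ 2 * ‖FF Φ a N ((j : ℝ) / P)‖ ^ 2 := mul_comm _ _
        _ ≤ (L : ℝ) ^ 2 * _ := mul_le_mul_of_nonneg_left h2 (by positivity)
        _ ≤ _ := by linarith
    · have h3 : ‖S j‖ ^ 2 ≤ (δ * L) ^ 2 := by
        have := (not_le.1 hSj).le
        gcongr
      have h4 := mul_le_mul_of_nonneg_left h3 hF0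
      have h5 : 0 ≤ (L : ℝ) ^ 2 * ∑ r ∈ Icc 1 R, ∑ b ∈ Icc (-(2 * R : ℤ)) (2 * R),
          (if |(j : ℝ) / P - (b : ℝ) / r| ≤ τ then ‖FF Φ a N ((j : ℝ) / P)‖ ^ 2 else 0) :=
        mul_nonneg (by positivity) (sum_nonneg hnn)
      linarith
  have hmajsum : ∑ j ∈ range P, ∑ r ∈ Icc 1 R, ∑ b ∈ Icc (-(2 * R : ℤ)) (2 * R),
      (if |(j : ℝ) / P - (b : ℝ) / r| ≤ τ then ‖FF Φ a N ((j : ℝ) / P)‖ ^ 2 else 0) ≤
      P * (ε / 2 * N) := by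
    rw [sum_comm]
    calc ∑ r ∈ Icc 1 R, ∑ j ∈ range P, ∑ b ∈ Icc (-(2 * R : ℤ)) (2 * R),
        (if |(j : ℝ) / P - (b : ℝ) / r| ≤ τ then ‖FF Φ a N ((j : ℝ) / P)‖ ^ 2 else 0)
        ≤ ∑ _r ∈ Icc 1 R, (5 * R : ℝ) * (P * (32 * N * (δ / (13 * R)) ^ 2)) := by
          refine sum_le_sum fun r hr => ?_
          rw [sum_comm]
          calc ∑ b ∈ Icc (-(2 * R : ℤ)) (2 * R), ∑ j ∈ range P,
              (if |(j : ℝ) / P - (b : ℝ) / r| ≤ τ then ‖FF Φ a N ((j : ℝ) / P)‖ ^ 2 else 0)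
              ≤ ∑ _b ∈ Icc (-(2 * R : ℤ)) (2 * R), (P * (32 * N * (δ / (13 * R)) ^ 2) : ℝ) := by
                refine sum_le_sum fun b _ => ?_
                rw [← sum_filter]
                refine (near_rat Φ R a a' H N h P hH hHN hh1 h1 h0 hcell (by omega) r hr b τ
                  hτ8).trans ?_
                gcongr
            _ = ((Icc (-(2 * R : ℤ)) (2 * R)).card : ℝ) * (P * (32 * N * (δ / (13 * R)) ^ 2)) := by
                rw [sum_const, nsmul_eq_mul]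
            _ ≤ (5 * R : ℝ) * (P * (32 * N * (δ / (13 * R)) ^ 2)) := by
                gcongr
                rw [Int.card_Icc]
                have : (2 * (R : ℤ) + 1 - -(2 * R)).toNat ≤ 5 * R := by omega
                exact_mod_cast this
      _ = R * ((5 * R : ℝ) * (P * (32 * N * (δ / (13 * R)) ^ 2))) := by
          rw [sum_const, nsmul_eq_mul]; simp
      _ = P * ((160 / 169) * δ ^ 2 * N) := by field_simp; ring
      _ ≤ P * (ε / 2 * N) := by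
          rw [hδ2]
          gcongr
          linarith
  have hfin : (P : ℝ) * X ≤ P * (ε * ((N : ℝ) * (L : ℝ) ^ 2)) := by
    rw [hcorr]
    calc ∑ j ∈ range P, ‖FF Φ a N ((j : ℝ) / P)‖ ^ 2 * ‖S j‖ ^ 2
        ≤ ∑ j ∈ range P, ((δ * L) ^ 2 * ‖FF Φ a N ((j : ℝ) / P)‖ ^ 2 +
          (L : ℝ) ^ 2 * ∑ r ∈ Icc 1 R, ∑ b ∈ Icc (-(2 * R : ℤ)) (2 * R),
            (if |(j : ℝ) / P - (b : ℝ) / r| ≤ τ then ‖FF Φ a N ((j : ℝ) / P)‖ ^ 2 else 0)) :=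
          sum_le_sum hpt
      _ = (δ * L) ^ 2 * ∑ j ∈ range P, ‖FF Φ a N ((j : ℝ) / P)‖ ^ 2 +
          (L : ℝ) ^ 2 * ∑ j ∈ range P, ∑ r ∈ Icc 1 R, ∑ b ∈ Icc (-(2 * R : ℤ)) (2 * R),
            (if |(j : ℝ) / P - (b : ℝ) / r| ≤ τ then ‖FF Φ a N ((j : ℝ) / P)‖ ^ 2 else 0) := by
          rw [sum_add_distrib, ← mul_sum, ← mul_sum]
      _ ≤ (δ * L) ^ 2 * (P * N) + (L : ℝ) ^ 2 * (P * (ε / 2 * N)) := by gcongr
      _ = P * (ε * ((N : ℝ) * (L : ℝ) ^ 2)) := by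
          rw [mul_pow, hδ2]; ring
  exact le_of_mul_le_mul_left hfin hP0

end

end Pool.Agent.N690.QG
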